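import Pool.Agent.W424.OD.Defs

/-!
Crossings of annuli contained in paths of arbitrary sets of edges.
-/

namespace Pool.Agent.W424.OD

open H974 H12S Finset H389NS H984P H984N H342P H342L H342T

/-- The box. -/
def BX (c : ℤ × ℤ) (d : ℕ) (v : Vtx) : Prop := inR (c.1 - d) (c.1 + d) (c.2 - d) (c.2 + d) v

theorem adj_near {G : Set Edg} {u v : Vtx} (h : Adj G u v) :
    (v.1 = u.1 ∧ (v.2 = u.2 + 1 ∨ v.2 = u.2 - 1)) ∨ (v.2 = u.2 ∧ (v.1 = u.1 + 1 ∨ v.1 = u.1 - 1)) := by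
  obtain ⟨⟨x, y, b⟩, _, h⟩ := h
  obtain ⟨u1, u2⟩ := u
  obtain ⟨v1, v2⟩ := v
  cases b
  · simp only [src_mk, tgt_false, Prod.mk.injEq] at h ⊢
    omega
  · simp only [src_mk, tgt_true, Prod.mk.injEq] at h ⊢
    omega

theorem mem_bdB_iff {c : ℤ × ℤ} {d : ℕ} {u : Vtx} : u ∈ bdB c d ↔ BX c d u ∧
    (u.1 = c.1 - d ∨ u.1 = c.1 + d ∨ u.2 = c.2 - d ∨ u.2 = c.2 + d) := by
  have key : ∀ a : ℤ, (|a| ≤ (d : ℤ) ↔ (-(d : ℤ) ≤ a ∧ a ≤ d)) ∧
      (|a| = (d : ℤ) ↔ (a = d ∨ a = -(d : ℤ))) := fun a =>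
    ⟨abs_le, abs_eq (Int.natCast_nonneg d)⟩
  unfold bdB BX inR
  rw [Set.mem_ofPred_eq, (key _).1, (key _).1, (key _).2, (key _).2]
  omega

theorem bdB_of_step {c : ℤ × ℤ} {d : ℕ} {G : Set Edg} {u v : Vtx} (h : Adj G u v)
    (hu : BX c d u) (hv : ¬ BX c d v) : u ∈ bdB c d := by
  have h1 := adj_near h
  rw [mem_bdB_iff]
  refine ⟨hu, ?_⟩
  unfold BX inR at hu hv
  omega

/-- last exit -/
theorem lastX {G : Set Edg} {c : ℤ × ℤ} {d : ℕ} {x w : Vtx} (hx : BX c d x) (h : Reach G x w) :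
    BX c d w ∨ ∃ u ∈ bdB c d, Reach G x u ∧ Reach (G \ ↑(blk c d)) u w := by
  induction h with
  | refl => exact Or.inl hx
  | @tail w w' hw hs ih =>
    by_cases hw' : BX c d w'
    · exact Or.inl hw'
    right
    have hne : Adj (G \ ↑(blk c d)) w w' := by
      obtain ⟨e, he, hc⟩ := hs
      refine ⟨e, ⟨he, fun hm => hw' ?_⟩, hc⟩
      have h2 := H731C.RE_ends (Finset.mem_coe.1 hm)
      rcases hc with ⟨h3, h4⟩ | ⟨h3, h4⟩
      · rw [← h4]; exact h2.2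
      · rw [← h3]; exact h2.1
    by_cases hwB : BX c d w
    · exact ⟨w, bdB_of_step hs hwB hw', hw, Adj.reach hne⟩
    · rcases ih with ih | ⟨u, hu, h1, h2⟩
      · exact absurd ih hwB
      · exact ⟨u, hu, h1, h2.trans (Adj.reach hne)⟩

/-- first exit -/
theorem firstX {G : Set Edg} {c : ℤ × ℤ} {k : ℕ} {u w : Vtx} (hu : BX c k u) (h : Reach G u w) :
    (BX c k w ∧ Reach (G ∩ ↑(blk c k)) u w) ∨ ∃ y ∈ bdB c k, Reach (G ∩ ↑(blk c k)) u y := by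
  induction h with
  | refl => exact Or.inl ⟨hu, Reach.refl _ _⟩
  | @tail w w' _ hs ih =>
    rcases ih with ⟨h1, h2⟩ | ih
    · by_cases hw' : BX c k w'
      · left
        refine ⟨hw', h2.trans (Adj.reach ?_)⟩
        obtain ⟨e, he, hc⟩ := hs
        refine ⟨e, ⟨he, Finset.mem_coe.2 ?_⟩, hc⟩
        rcases hc with ⟨h3, h4⟩ | ⟨h3, h4⟩
        · exact H731C.RE_of_ends (by rw [h3]; exact h1) (by rw [h4]; exact hw')
        · exact H731C.RE_of_ends (by rw [h3]; exact hw') (by rw [h4]; exact h1)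
      · right
        exact ⟨w, bdB_of_step hs h1 hw', h2⟩
    · exact Or.inr ih

theorem bdB_BX {c : ℤ × ℤ} {d k : ℕ} (hdk : d ≤ k) {u : Vtx} (h : u ∈ bdB c d) : BX c k u := by
  have h1 := (mem_bdB_iff.1 h).1
  unfold BX inR at h1 ⊢
  omega

/-- crossing of an annulus -/
theorem annX {G : Set Edg} {c : ℤ × ℤ} {d k : ℕ} (hdk : d ≤ k) {x w : Vtx} (hx : BX c d x)
    (hw : ¬ BX c k w) (h : Reach G x w) :
    ∃ u ∈ bdB c d, ∃ y ∈ bdB c k, Reach G x u ∧ Reach (G ∩ AE c d k) u y := by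
  rcases lastX hx h with h1 | ⟨u, hu, h1, h2⟩
  · exfalso
    apply hw
    unfold BX inR at h1 ⊢
    omega
  · rcases firstX (bdB_BX hdk hu) h2 with h3 | ⟨y, hy, h3⟩
    · exact absurd h3.1 hw
    · refine ⟨u, hu, y, hy, h1, h3.mono ?_⟩
      rintro e ⟨⟨h4, h5⟩, h6⟩
      refine ⟨h4, ?_⟩
      show e ∈ (↑(blk c k \ blk c d) : Set Edg)
      rw [Finset.coe_sdiff]
      exact ⟨h6, h5⟩

/-- The combinatorial part of the three-arm event. -/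
theorem A3v_of {F : Set Edg} {c : ℤ × ℤ} {d k : ℕ} (hdk : d ≤ k) {v x x' w w' : Vtx}
    (hx : BX c d x) (hvx : Reach F v x) (hx' : ¬ BX c k x') (hvx' : Reach F v x')
    (hw : BX c d w) (hw' : ¬ BX c k w')
    (hww : Reach {e | ¬ Reach F v (src e) ∧ ¬ Reach F v (tgt e)} w w') : A3v c d k F := by
  obtain ⟨u, hu, y, hy, h1, h2⟩ := annX hdk hx hx' (hvx.symm.trans hvx')
  obtain ⟨a, ha, b, hb, -, h4⟩ := annX hdk hw hw' hww
  have hsub : ∀ t, t ∈ Cl c d k F u → Reach F v t := fun t ht =>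
    hvx.trans (h1.trans (Reach.mono (show F ∩ AE c d k ⊆ F from Set.inter_subset_left) ht))
  refine ⟨u, hu, ⟨y, hy, h2⟩, a, ha, b, hb, h4.mono ?_⟩
  rintro e ⟨⟨h5, h6⟩, h7⟩
  exact ⟨h7, fun h => h5 (hsub _ h), fun h => h6 (hsub _ h)⟩

end Pool.Agent.W424.OD
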