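import Pool.Agent.W822.PD.StmC

/-!
Odd arms, phase 4: outer boundaries. Definitions and statements (nothing is assumed).
-/

namespace Pool.Agent.W424.OD

open H974 H12S Finset H389NS H984P H984N H342P H342L H342T
open MeasureTheory Filter Topology Pool.Agent.W92.DP Pool.Agent.W822.PD

/-- The edges of the annulus between the squares of radius `d` and `k` around `c`. -/
def AE (c : ℤ × ℤ) (d k : ℕ) : Set Edg := ↑(blk c k \ blk c d)

/-- The cluster of `u` in the annulus. -/
def Cl (c : ℤ × ℤ) (d k : ℕ) (F : Set Edg) (u : Vtx) : Set Vtx := {v | Reach (F ∩ AE c d k) u v}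

/-- The three-arm event (open, closed, closed): some open cluster of the annulus crosses it, and a
lattice path (of arbitrary edges) of the annulus which avoids this cluster crosses the annulus. -/
def A3v (c : ℤ × ℤ) (d k : ℕ) (F : Set Edg) : Prop :=
  ∃ u ∈ bdB c d, (∃ w ∈ bdB c k, w ∈ Cl c d k F u) ∧
    ∃ x ∈ bdB c d, ∃ y ∈ bdB c k,
      Reach {e | e ∈ AE c d k ∧ src e ∉ Cl c d k F u ∧ tgt e ∉ Cl c d k F u} x y

/-- U3: the three-arm probability in annuli, upper bound. -/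
def U3 : Prop := ∃ C : ℝ, 0 < C ∧ ∀ (c : ℤ × ℤ) (d k : ℕ), 1 ≤ d → d ≤ k →
  ∀ S : Finset Edg, blk c k ⊆ S →
    PQ (1/2) S (fun F => A3v c d k ↑F) ≤ C * ((d:ℝ) / k) ^ (2/3 : ℝ)

/-! ### Curves -/

/-- The unbounded component of the complement of `K`. -/
def unb (K : Set ℂ) : Set ℂ := {z | z ∈ Kᶜ ∧ ¬ Bornology.IsBounded (connectedComponentIn Kᶜ z)}

/-- The outer boundary of `K`. -/
def oB (K : Set ℂ) : Set ℂ := frontier (unb K)

/-- The curve visits the disc `B(z, r)`, leaves the disc of radius `ρ`, and some path `g` from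
`B(z, r)` to distance `10` keeps a distance larger than `ζ` from the curve. -/
def EvO (z : ℂ) (r ρ ζ : ℝ) : Set Curve :=
  {c | (∃ s, dist (c.path s) z < r) ∧ (∃ s, ρ < dist (c.path s) z) ∧
    ∃ g : C(unitInterval, ℂ), dist (g 0) z < r ∧ 10 < ‖g 1‖ ∧ ∀ s t, ζ < dist (g t) (c.path s)}

/-- UL3: the outer boundary has dimension at most `4/3`. -/
def S_UL3 : Prop := U3 → ∀ (sel : (n : ℕ) → Finset Plain.Edge → ℤ × ℤ)
  (γ : (n : ℕ) → Finset Plain.Edge → Curve), Tr sel γ → ∀ (k : ℕ → ℕ), Tendsto k atTop atTop →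
  ∀ μ : ProbabilityMeasure Curve, Tendsto (fun i => lawOf (k i) (γ (k i))) atTop (𝓝 μ) →
    ∀ᵐ c : Curve ∂(μ : Measure Curve), dimH (oB (Set.range c.path)) ≤ 4/3

end Pool.Agent.W424.OD
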