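import Pool.Agent.W424.OD.Ann
import Pool.Agent.H342R2.Per.Plain

/-!
The number of the accessible vertices of the largest cluster.
-/

set_option autoImplicit false

namespace Pool.Agent.W424.OD

open H974 H12S Finset H389NS H984P H984N H342P

/-- The lattice without the vertices of the set `C`. -/
def avoidGraph (C : Set (ℤ × ℤ)) : SimpleGraph (ℤ × ℤ) :=
  SimpleGraph.fromRel (fun u w => (∃ e : Plain.Edge, Plain.fst e = u ∧ Plain.snd e = w) ∧
    u ∉ C ∧ w ∉ C)

/-- The vertex `w` of the cluster `C` of `v` is accessible: some lattice neighbour `p` of `w` outside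
`C` is joined to the outside of `Λ_n` by a lattice path (of open or closed edges) which avoids `C`. -/
def Accessible (n : ℕ) (F : Finset Plain.Edge) (v w : ℤ × ℤ) : Prop :=
  w ∈ Plain.cluster F v ∧ ∃ (e : Plain.Edge) (p q : ℤ × ℤ),
    ((Plain.fst e = w ∧ Plain.snd e = p) ∨ (Plain.fst e = p ∧ Plain.snd e = w)) ∧
    p ∉ Plain.cluster F v ∧ q ∉ Plain.box n ∧ (avoidGraph (Plain.cluster F v)).Reachable p q

open Classical in
/-- The accessible vertices of the cluster of `v`. -/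
noncomputable def accessible (n : ℕ) (F : Finset Plain.Edge) (v : ℤ × ℤ) : Finset (ℤ × ℤ) :=
  (Plain.box n).filter (fun w => Accessible n F v w)

theorem avoid_reach {F : Finset Plain.Edge} {v p q : ℤ × ℤ}
    (h : (avoidGraph (Plain.cluster F v)).Reachable p q) :
    Reach {e | ¬ Reach (↑F : Set Edg) v (src e) ∧ ¬ Reach (↑F : Set Edg) v (tgt e)} p q := by
  rw [SimpleGraph.reachable_iff_reflTransGen] at h
  refine Relation.ReflTransGen.mono ?_ _ _ h
  intro a b hab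
  unfold avoidGraph at hab
  rw [SimpleGraph.fromRel_adj] at hab
  obtain ⟨-, ⟨⟨e, h1, h2⟩, h3, h4⟩ | ⟨⟨e, h1, h2⟩, h3, h4⟩⟩ := hab
  · rw [Plain.mem_cluster] at h3 h4
    rw [Plain.fst_eq] at h1
    rw [Plain.snd_eq] at h2
    exact ⟨e, ⟨by rw [h1]; exact h3, by rw [h2]; exact h4⟩, Or.inl ⟨h1, h2⟩⟩
  · rw [Plain.mem_cluster] at h3 h4
    rw [Plain.fst_eq] at h1
    rw [Plain.snd_eq] at h2
    exact ⟨e, ⟨by rw [h1]; exact h3, by rw [h2]; exact h4⟩, Or.inr ⟨h1, h2⟩⟩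

/-- three arms up to distance `k` -/
def A3k (w : Vtx) (k : ℤ) (F : Set Edg) : Prop := k ≤ 0 ∨ A3v w 1 k.toNat F

/-- number of vertices with three arms -/
noncomputable def NA (n : ℕ) (m : ℤ) (F : Set Edg) : ℝ :=
  ∑ w ∈ Finset.Icc (0:ℤ) n ×ˢ Finset.Icc (0:ℤ) n, ind (A3k w (min m (bdist n w)) F)

theorem NA_nonneg (n : ℕ) (m : ℤ) (F : Set Edg) : 0 ≤ NA n m F :=
  Finset.sum_nonneg (fun _ _ => ind_nonneg _)

theorem acc_le {n : ℕ} {m : ℤ} {F : Finset Plain.Edge} {v : ℤ × ℤ} (hm : IsMax n (↑F : Set Edg) v)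
    (hb : Big n (m + 1) (↑F : Set Edg)) : ((accessible n F v).card : ℝ) ≤ NA n m (↑F : Set Edg) := by
  classical
  obtain ⟨a, b, ha, hb', hmax⟩ := hm
  obtain ⟨c, d, hc, hd, hcd, h8⟩ := hb
  have h8' : 8 * (m + 1) ^ 2 ≤ dsq a b := h8.trans (hmax c d hc hd hcd)
  have hfar : ∀ (u : Vtx) (k : ℤ), k ≤ m + 1 → ∃ w, Reach (↑F : Set Edg) v w ∧ FarF u k w := by
    intro u k hk
    by_contra hcon
    push Not at hcon
    have h1 := hcon a ha
    have h2 := hcon b hb'
    have h3 := dsq_lt h1 h2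
    have h4 : 0 < k := by
      unfold FarF at h1
      rw [not_not] at h1
      unfold inF at h1
      omega
    nlinarith
  unfold accessible NA Plain.box
  rw [Finset.card_filter]
  push_cast
  apply Finset.sum_le_sum
  intro w hw
  split_ifs with h
  swap
  · exact ind_nonneg _
  rw [ind_of]
  by_cases hk0 : min m (bdist n w) ≤ 0
  · exact Or.inl hk0
  right
  obtain ⟨hwc, e, p, q, he, hp, hq, hpq⟩ := h
  set k : ℤ := min m (bdist n w) with hk
  have hkm : k ≤ m := min_le_left _ _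
  have hkb : k ≤ bdist n w := min_le_right _ _
  have hkn : ((k.toNat : ℕ) : ℤ) = k := Int.toNat_of_nonneg (by omega)
  obtain ⟨x', hx', hxf⟩ := hfar w (k + 1) (by omega)
  have hwR : Reach (↑F : Set Edg) v w := (Plain.mem_cluster _ _ _).1 hwc
  have hww : BX w 1 w := by
    unfold BX inR
    omega
  have hpw : BX w 1 p := by
    obtain ⟨x, y, t⟩ := e
    obtain ⟨w1, w2⟩ := w
    obtain ⟨p1, p2⟩ := p
    unfold BX inR
    unfold Plain.fst Plain.snd at he
    cases t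
    · simp only [Bool.false_eq_true, if_false, Prod.mk.injEq] at he
      simp only [Nat.cast_one]
      omega
    · simp only [if_true, Prod.mk.injEq] at he
      simp only [Nat.cast_one]
      omega
  refine A3v_of (v := v) (x := w) (x' := x') (w := p) (w' := q) (by omega) hww hwR ?_ hx' hpw ?_
    (avoid_reach hpq)
  · unfold FarF inF at hxf
    unfold BX inR
    omega
  · intro hqb
    apply hq
    unfold Plain.box
    rw [Finset.mem_product, Finset.mem_Icc, Finset.mem_Icc]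
    unfold BX inR at hqb
    unfold bdist at hkb
    omega

theorem blk_sub {n : ℕ} {u : Vtx} {k : ℕ} (hk : (k : ℤ) ≤ bdist n u) : blk u k ⊆ RE 0 n 0 n :=
  box_sub hk

theorem ex_NA_le {C s : ℝ} (hC : 0 ≤ C) (hU : ∀ (c : ℤ × ℤ) (k : ℕ), 1 ≤ k → ∀ S : Finset Edg,
    blk c k ⊆ S → PQ (1/2) S (fun F => A3v c 1 k ↑F) ≤ C * (k : ℝ) ^ (-s)) (n : ℕ) (m : ℤ) :
    Ex (fun _ => (1/2:ℝ)) (RE 0 n 0 n) (fun F => NA n m (↑F)) ≤
      (n + 1) ^ 2 * ph C s m + 4 * (n + 1) * ∑ x ∈ Finset.Icc (0:ℤ) n, ph C s x := by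
  have hok : Ok (fun _ : Edg => (1/2:ℝ)) := fun _ => ⟨by norm_num, by norm_num⟩
  have h1 : Ex (fun _ => (1/2:ℝ)) (RE 0 n 0 n) (fun F => NA n m (↑F)) ≤
      ∑ w ∈ Finset.Icc (0:ℤ) n ×ˢ Finset.Icc (0:ℤ) n, (ph C s m + (ph C s w.1 + ph C s (n - w.1) +
        (ph C s w.2 + ph C s (n - w.2)))) := by
    unfold NA
    rw [Ex_sum]
    apply Finset.sum_le_sum
    intro w _
    refine le_trans ?_ (ph_min (s := s) hC n m w)
    set k : ℤ := min m (bdist n w) with hk
    unfold ph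
    split_ifs with h
    · exact Pr_le_one hok _ (fun F => A3k w k (↑F : Set Edg))
    · have hkn : ((k.toNat : ℕ) : ℤ) = k := Int.toNat_of_nonneg (by omega)
      have h2 := hU w k.toNat (by omega) (RE 0 n 0 n)
        (blk_sub (by rw [hkn]; exact min_le_right _ _))
      have h3 : (((k.toNat : ℕ) : ℝ)) = (k : ℝ) := by exact_mod_cast hkn
      rw [h3] at h2
      refine le_trans ?_ h2
      refine Pr_mono hok ?_
      intro F _ hF
      rcases hF with hF | hF
      · exact absurd hF h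
      · exact hF
  refine h1.trans (le_of_eq ?_)
  rw [Finset.sum_product]
  have hc : (Finset.Icc (0:ℤ) n).card = n + 1 := by
    rw [Int.card_Icc]; omega
  simp_rw [Finset.sum_add_distrib, Finset.sum_const, hc, sum_refl n (ph C s)]
  simp_rw [nsmul_eq_mul]
  have hr : ∑ x ∈ Finset.Icc (0:ℤ) n, ((n + 1 : ℕ) : ℝ) * ph C s (n - x) =
      ((n + 1 : ℕ) : ℝ) * ∑ x ∈ Finset.Icc (0:ℤ) n, ph C s x := by
    rw [← Finset.mul_sum, sum_refl n (ph C s)]
  have hr2 : ∑ x ∈ Finset.Icc (0:ℤ) n, ((n + 1 : ℕ) : ℝ) * ph C s x =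
      ((n + 1 : ℕ) : ℝ) * ∑ x ∈ Finset.Icc (0:ℤ) n, ph C s x := by
    rw [← Finset.mul_sum]
  simp only [hr, hr2]
  push_cast
  ring

theorem acc_le_card (n : ℕ) (F : Finset Plain.Edge) (v : ℤ × ℤ) :
    (accessible n F v).card ≤ (n + 1) ^ 2 := by
  classical
  unfold accessible
  refine (Finset.card_filter_le _ _).trans ?_
  unfold Plain.box
  rw [Finset.card_product, Int.card_Icc]
  have h : ((n : ℤ) + 1 - 0).toNat = n + 1 := by omega
  rw [h, sq]

/-- Upper bound for the number of accessible vertices. -/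
theorem cnt {C s : ℝ} (hC : 0 ≤ C) (hs0 : 0 ≤ s) (hs1 : s < 1)
    (hU : ∀ (c : ℤ × ℤ) (k : ℕ), 1 ≤ k → ∀ S : Finset Edg,
      blk c k ⊆ S → PQ (1/2) S (fun F => A3v c 1 k ↑F) ≤ C * (k : ℝ) ^ (-s)) {δ : ℝ} (hδ : 0 < δ) :
    ∃ Λ : ℝ, 0 < Λ ∧ ∀ n : ℕ, 1 ≤ n → Plain.prob n (fun F => ∃ v, Plain.Largest n F v ∧
      Λ * (n:ℝ) ^ (2 - s) < ((accessible n F v).card : ℝ)) ≤ δ := by
  classical
  have hok : Ok (fun _ : Edg => (1/2:ℝ)) := fun _ => ⟨by norm_num, by norm_num⟩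
  obtain ⟨K0, hK0⟩ := exists_pow_lt_of_lt_one (show (0:ℝ) < δ / 2 by linarith)
    (show (1/2:ℝ) < 1 by norm_num)
  set K := K0 + 1 with hK
  have hKd : (1/2:ℝ) ^ K ≤ δ / 2 := by
    rw [hK, pow_succ]
    have : (0:ℝ) ≤ (1/2) ^ K0 := by positivity
    linarith
  have hs1' : 0 < 1 - s := by linarith
  set A : ℝ := 4 * C * (12 * K) ^ s + 8 * (1 + C / (1 - s)) with hA
  have hA0 : 0 < A := by
    have : 0 ≤ C / (1 - s) := by positivity
    have : 0 ≤ 4 * C * (12 * (K:ℝ)) ^ s := by positivity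
    linarith
  set N : ℕ := 32 * K with hN
  refine ⟨2 * A / δ + (N + 1) ^ 2, by positivity, ?_⟩
  intro n hn
  have hn1 : (1:ℝ) ≤ n := by exact_mod_cast hn
  have hn0 : (0:ℝ) < n := by linarith
  have hpow1 : (1:ℝ) ≤ (n:ℝ) ^ (2 - s) := Real.one_le_rpow hn1 (by linarith)
  rw [Plain.prob_eq]
  by_cases hnN : n < N
  · have : ∀ F : Finset Edg, F ⊆ RE 0 n 0 n → ¬ ∃ v, Plain.Largest n F v ∧
        (2 * A / δ + (N + 1) ^ 2) * (n:ℝ) ^ (2 - s) < ((accessible n F v).card : ℝ) := by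
      rintro F _ ⟨v, -, h2⟩
      have h3 : ((accessible n F v).card : ℝ) ≤ (n + 1) ^ 2 := by
        exact_mod_cast acc_le_card n F v
      have h4 : ((n : ℝ) + 1) ^ 2 ≤ (N + 1) ^ 2 := by
        have : (n:ℝ) ≤ N := by exact_mod_cast hnN.le
        gcongr
      have h5 : ((N : ℝ) + 1) ^ 2 ≤ (2 * A / δ + (N + 1) ^ 2) * (n:ℝ) ^ (2 - s) := by
        have h6 : 0 ≤ 2 * A / δ := by positivity
        have h7 : (0:ℝ) ≤ ((N : ℝ) + 1) ^ 2 := by positivity
        nlinarith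
      linarith
    have h0 : Pr (fun _ => (1/2:ℝ)) (RE 0 n 0 n)
        (fun F => ∃ v, Plain.Largest n F v ∧
          (2 * A / δ + (N + 1) ^ 2) * (n:ℝ) ^ (2 - s) < ((accessible n F v).card : ℝ)) ≤
        Pr (fun _ => (1/2:ℝ)) (RE 0 n 0 n) (fun _ => ¬ True) := by
      apply Pr_mono hok
      intro F hF h
      exact absurd h (this F hF)
    rw [Pr_not, Pr_true _ (fun _ _ => trivial)] at h0
    linarith
  · rw [not_lt] at hnN
    set L : ℕ := n / (2 * K) with hL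
    obtain ⟨m, hm⟩ : ∃ m : ℕ, L / 3 = m + 1 := by
      refine ⟨L / 3 - 1, ?_⟩
      have : 16 ≤ L := by
        rw [hL, Nat.le_div_iff_mul_le (by omega)]
        omega
      omega
    have hKpos : 0 < K := by omega
    have hLn : 2 * K * L ≤ n := Nat.mul_div_le n (2 * K)
    have hLn2 : n < 2 * K * (L + 1) := Nat.lt_mul_div_succ n (by omega)
    have hL8 : 16 ≤ L := by
      rw [hL, Nat.le_div_iff_mul_le (by omega)]
      omega
    have hm1 : 3 * (m + 1) ≤ L := by omega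
    have hm2 : L < 3 * (m + 2) := by omega
    have hmpos : 2 ≤ m := by omega
    have hKL : K * (L + 1) ≤ n + 1 := by nlinarith
    have hLnn : L ≤ n := by nlinarith
    have hnm : n ≤ 12 * K * m := by
      have : 2 * K * (L + 1) ≤ 2 * K * (3 * (m + 2)) := by gcongr; omega
      nlinarith
    have hNB := pr_not_big (n := n) (L := L) (K := K) (by omega) (m := (m:ℤ) + 1) (by omega)
      (by exact_mod_cast hm1) hKL hLnn
    set t : ℝ := (2 * A / δ + (N + 1) ^ 2) * (n:ℝ) ^ (2 - s) with ht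
    have htpos : 0 < t := by positivity
    have h1 : Pr (fun _ => (1/2:ℝ)) (RE 0 n 0 n) (fun F => ∃ v, Plain.Largest n F v ∧
        t < ((accessible n F v).card : ℝ)) ≤
        Pr (fun _ => (1/2:ℝ)) (RE 0 n 0 n) (fun F => t ≤ NA n m (↑F) ∨ ¬ Big n ((m:ℤ) + 1) (↑F)) := by
      apply Pr_mono hok
      rintro F _ ⟨v, h2, h3⟩
      by_cases hb : Big n ((m:ℤ) + 1) (↑F)
      · left
        exact h3.le.trans (acc_le (Plain.isMax_of_largest h2) hb)
      · exact Or.inr hb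
    have h2 := Pr_or_le hok (RE 0 n 0 n) (fun F => t ≤ NA n m (↑F))
      (fun F => ¬ Big n ((m:ℤ) + 1) (↑F))
    have h3 := markov (S := RE 0 n 0 n) (X := fun F => NA n m (↑F))
      (fun F => NA_nonneg n m (↑F)) htpos
    have h4 := ex_NA_le hC hU n m
    have h5 := sum_ph_le hC hs0 hs1 n
    have hmR : (n:ℝ) / (12 * K) ≤ m := by
      rw [div_le_iff₀ (by positivity)]
      have : (n:ℝ) ≤ 12 * K * m := by exact_mod_cast hnm
      linarith
    have h6 : ph C s (m:ℤ) ≤ C * ((12 * K) ^ s * (n:ℝ) ^ (-s)) := by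
      unfold ph
      rw [if_neg (by omega)]
      have h7 : ((m:ℤ):ℝ) ^ (-s) ≤ ((n:ℝ) / (12 * K)) ^ (-s) := by
        apply Real.rpow_le_rpow_of_nonpos (by positivity) (by exact_mod_cast hmR) (by linarith)
      have h8 : ((n:ℝ) / (12 * K)) ^ (-s) = (12 * K) ^ s * (n:ℝ) ^ (-s) := by
        rw [Real.div_rpow hn0.le (by positivity), Real.rpow_neg (by positivity : (0:ℝ) ≤ 12 * K)]
        field_simp
      rw [← h8]
      gcongr
    have h9 : (n:ℝ) ^ 2 * (n:ℝ) ^ (-s) = (n:ℝ) ^ (2 - s) := by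
      rw [← Real.rpow_natCast, ← Real.rpow_add hn0]
      norm_num
      ring_nf
    have h10 : (n:ℝ) * (n:ℝ) ^ (1 - s) = (n:ℝ) ^ (2 - s) := by
      rw [show (2 - s) = 1 + (1 - s) by ring, Real.rpow_add hn0, Real.rpow_one]
    have h11 : (1:ℝ) ≤ (n:ℝ) ^ (1 - s) := Real.one_le_rpow hn1 (by linarith)
    have h12 : Ex (fun _ => (1/2:ℝ)) (RE 0 n 0 n) (fun F => NA n m (↑F)) ≤
        A * (n:ℝ) ^ (2 - s) := by
      refine h4.trans ?_
      have h13 : ((n:ℝ) + 1) ^ 2 * ph C s m ≤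
          (4 * (n:ℝ) ^ 2) * (C * ((12 * K) ^ s * (n:ℝ) ^ (-s))) := by
        apply mul_le_mul _ h6 (ph_nonneg hC _) (by positivity)
        nlinarith
      have h14 : 4 * ((n:ℝ) + 1) * ∑ x ∈ Finset.Icc (0:ℤ) n, ph C s x ≤
          (8 * (n:ℝ)) * ((1 + C / (1 - s)) * (n:ℝ) ^ (1 - s)) := by
        apply mul_le_mul (by linarith) _ (Finset.sum_nonneg (fun x _ => ph_nonneg hC x))
          (by positivity)
        refine h5.trans ?_
        have : C * ((n:ℝ) ^ (1 - s) / (1 - s)) = C / (1 - s) * (n:ℝ) ^ (1 - s) := by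
          field_simp
        rw [this, add_mul]
        linarith
      have h15 : (4 * (n:ℝ) ^ 2) * (C * ((12 * K) ^ s * (n:ℝ) ^ (-s))) =
          4 * C * (12 * K) ^ s * (n:ℝ) ^ (2 - s) := by
        rw [← h9]; ring
      have h16 : (8 * (n:ℝ)) * ((1 + C / (1 - s)) * (n:ℝ) ^ (1 - s)) =
          8 * (1 + C / (1 - s)) * (n:ℝ) ^ (2 - s) := by
        rw [← h10]; ring
      rw [hA]
      rw [h15] at h13
      rw [h16] at h14
      linarith
    have h17 : Ex (fun _ => (1/2:ℝ)) (RE 0 n 0 n) (fun F => NA n m (↑F)) / t ≤ δ / 2 := by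
      rw [div_le_iff₀ htpos]
      refine h12.trans ?_
      have h18 : A ≤ δ / 2 * (2 * A / δ + (N + 1) ^ 2) := by
        have : δ / 2 * (2 * A / δ) = A := by field_simp
        rw [mul_add, this]
        have : 0 ≤ δ / 2 * (((N:ℝ) + 1) ^ 2) := by positivity
        linarith
      rw [ht, ← mul_assoc]
      exact mul_le_mul_of_nonneg_right h18 (by positivity)
    linarith

end Pool.Agent.W424.OD
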