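import Pool.Agent.W424.OD.Ann
import Pool.Agent.W978.PD.UL
import Pool.Agent.W597.PDBL
import Pool.Agent.H342R3.Tig.RNG
import Pool.Agent.H342R3.Tig.ORB

/-!
A point of the outer boundary forces three arms (deterministic part).
-/

namespace Pool.Agent.W424.OD

open H974 H12S Finset H389NS H984P H984N H342P H342L H342T
open MeasureTheory Filter Topology Pool.Agent.W92.DP Pool.Agent.W822.PD Pool.Agent.W462.DPL
open Pool.Agent.W978.PDUL

/-! ### The unbounded component -/

theorem outside_eq (n : ℕ) (F : Finset Plain.Edge) (v : ℤ × ℤ) :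
    outside n F v = unb (body n F v) := rfl

theorem unb_comp {K : Set ℂ} {z y : ℂ} (hy : y ∈ connectedComponentIn Kᶜ z) :
    y ∈ unb K ↔ z ∈ unb K := by
  have hz : z ∈ Kᶜ := by
    by_contra hcon
    rw [connectedComponentIn_eq_empty hcon] at hy
    exact hy
  have hyK : y ∈ Kᶜ := connectedComponentIn_subset _ _ hy
  have he := connectedComponentIn_eq hy
  unfold unb
  rw [Set.mem_ofPred_eq, Set.mem_ofPred_eq, he]
  exact ⟨fun h => ⟨hz, h.2⟩, fun h => ⟨hyK, h.2⟩⟩

theorem unb_open {K : Set ℂ} (hK : IsClosed K) : IsOpen (unb K) := by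
  rw [isOpen_iff_mem_nhds]
  intro z hz
  have h1 : IsOpen (connectedComponentIn Kᶜ z) := hK.isOpen_compl.connectedComponentIn
  refine Filter.mem_of_superset (h1.mem_nhds (mem_connectedComponentIn hz.1)) ?_
  intro y hy
  exact (unb_comp hy).2 hz

theorem oB_sub {K : Set ℂ} (hK : IsClosed K) : oB K ⊆ K := by
  intro z hz
  by_contra hcon
  have hopen : IsOpen (connectedComponentIn Kᶜ z) := hK.isOpen_compl.connectedComponentIn
  have hmem : z ∈ connectedComponentIn Kᶜ z := mem_connectedComponentIn hcon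
  have h1 : z ∈ closure (unb K) := frontier_subset_closure hz
  rw [mem_closure_iff] at h1
  obtain ⟨y, hy1, hy2⟩ := h1 _ hopen hmem
  have h2 : z ∈ unb K := (unb_comp hy1).1 hy2
  have h3 : frontier (unb K) ∩ unb K = ∅ := by
    rw [(unb_open hK).frontier_eq]
    ext x
    simp
  have h4 : z ∈ frontier (unb K) ∩ unb K := ⟨hz, h2⟩
  rw [h3] at h4
  exact h4

theorem half_unb {K : Set ℂ} (hK : ∀ z ∈ K, 0 ≤ z.re) : {z : ℂ | z.re < 0} ⊆ unb K := by
  have hsub : {z : ℂ | z.re < 0} ⊆ Kᶜ := by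
    intro z hz h
    have h1 := hK z h
    have h2 : z.re < 0 := hz
    linarith
  have hconv : IsPreconnected {z : ℂ | z.re < 0} :=
    (convex_halfSpace_re_lt 0).isPreconnected
  intro z hz
  refine ⟨hsub hz, fun hb => ?_⟩
  have h6 := hb.subset (hconv.subset_connectedComponentIn hz hsub)
  obtain ⟨C, hC⟩ := (Metric.isBounded_iff_subset_closedBall (0 : ℂ)).1 h6
  have h7 : (⟨-(|C| + 1), 0⟩ : ℂ) ∈ {z : ℂ | z.re < 0} := by
    show -(|C| + 1) < 0
    have := abs_nonneg C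
    linarith
  have h9 := hC h7
  rw [mem_closedBall_zero_iff] at h9
  have h10 := Complex.abs_re_le_norm (⟨-(|C| + 1), 0⟩ : ℂ)
  have h11 : |(⟨-(|C| + 1), 0⟩ : ℂ).re| = |C| + 1 := by
    show |-(|C| + 1)| = |C| + 1
    rw [abs_neg, abs_of_pos (by positivity)]
  rw [h11] at h10
  have := le_abs_self C
  linarith

theorem sub_of_frontier {U S : Set ℂ} (hU : IsOpen U) (hS : IsPreconnected S)
    (hne : (S ∩ U).Nonempty) (hd : ∀ x ∈ S, x ∉ frontier U) : S ⊆ U := by
  refine hS.subset_of_closure_inter_subset hU hne ?_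
  rintro x ⟨h1, h2⟩
  by_contra h3
  apply hd x h2
  rw [hU.frontier_eq]
  exact ⟨h1, h3⟩

/-! ### A lattice path along a curve -/

/-- Closest lattice point. -/
noncomputable def nr (n : ℕ) (z : ℂ) : Vtx := (round ((n : ℝ) * z.re), round ((n : ℝ) * z.im))

theorem nr_near {n : ℕ} (hn : 0 < n) (z : ℂ) : dist (pt n (nr n z)) z ≤ 1 / n := by
  have hn' : (0:ℝ) < n := by exact_mod_cast hn
  rw [dist_eq_norm]
  refine (Complex.norm_le_abs_re_add_abs_im _).trans ?_
  have key : ∀ x : ℝ, |((round ((n : ℝ) * x) : ℤ) : ℝ) / n - x| ≤ 1 / 2 * (1 / n) := by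
    intro x
    have h := abs_sub_round ((n : ℝ) * x)
    have e : ((round ((n : ℝ) * x) : ℤ) : ℝ) / n - x = -((n * x - round ((n : ℝ) * x)) / n) := by
      field_simp
      ring
    rw [e, abs_neg, abs_div, Nat.abs_cast, div_le_iff₀ hn']
    refine h.trans (le_of_eq ?_)
    field_simp
  have h1 := key z.re
  have h2 := key z.im
  rw [Complex.sub_re, Complex.sub_im]
  have e1 : (pt n (nr n z)).re = ((round ((n : ℝ) * z.re) : ℤ) : ℝ) / n := rfl
  have e2 : (pt n (nr n z)).im = ((round ((n : ℝ) * z.im) : ℤ) : ℝ) / n := rfl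
  rw [e1, e2]
  linarith

theorem round_step {x y : ℝ} (h : |x - y| < 1) :
    round y = round x ∨ round y = round x + 1 ∨ round y = round x - 1 := by
  have h1 := abs_sub_round x
  have h2 := abs_sub_round y
  rw [abs_le] at h1 h2
  rw [abs_lt] at h
  have h3 : ((round y : ℤ) : ℝ) < round x + 2 := by linarith
  have h4 : ((round x : ℤ) : ℝ) < round y + 2 := by linarith
  have h5 : round y < round x + 2 := by exact_mod_cast h3
  have h6 : round x < round y + 2 := by exact_mod_cast h4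
  omega

theorem hstep {B : Set Vtx} {x x' y : ℤ} (h1 : (x, y) ∉ B) (h2 : (x', y) ∉ B)
    (h : x' = x ∨ x' = x + 1 ∨ x' = x - 1) :
    Reach {e : Edg | src e ∉ B ∧ tgt e ∉ B} (x, y) (x', y) := by
  rcases h with h | h | h
  · rw [h]; exact Reach.refl _ _
  · subst h
    exact Adj.reach ⟨(x, y, true), ⟨h1, h2⟩, Or.inl ⟨rfl, rfl⟩⟩
  · subst h
    refine Adj.reach ⟨(x - 1, y, true), ⟨h2, ?_⟩, Or.inr ⟨rfl, ?_⟩⟩
    · rw [tgt_true, sub_add_cancel]
      exact h1
    · rw [tgt_true, sub_add_cancel]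

theorem vstep {B : Set Vtx} {x y y' : ℤ} (h1 : (x, y) ∉ B) (h2 : (x, y') ∉ B)
    (h : y' = y ∨ y' = y + 1 ∨ y' = y - 1) :
    Reach {e : Edg | src e ∉ B ∧ tgt e ∉ B} (x, y) (x, y') := by
  rcases h with h | h | h
  · rw [h]; exact Reach.refl _ _
  · subst h
    exact Adj.reach ⟨(x, y, false), ⟨h1, h2⟩, Or.inl ⟨rfl, rfl⟩⟩
  · subst h
    refine Adj.reach ⟨(x, y - 1, false), ⟨h2, ?_⟩, Or.inr ⟨rfl, ?_⟩⟩
    · rw [tgt_false, sub_add_cancel]
      exact h1
    · rw [tgt_false, sub_add_cancel]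

theorem pt_near1 {n : ℕ} (hn : 0 < n) {x x' y : ℤ} (h : x' = x ∨ x' = x + 1 ∨ x' = x - 1) :
    dist (pt n (x', y)) (pt n (x, y)) ≤ 1 / n := by
  have hn' : (0:ℝ) < n := by exact_mod_cast hn
  rw [dist_eq_norm]
  refine (Complex.norm_le_abs_re_add_abs_im _).trans ?_
  rw [Complex.sub_re, Complex.sub_im]
  have e1 : (pt n (x', y)).re - (pt n (x, y)).re = ((x' : ℝ) - x) / n := by
    show (x' : ℝ) / n - (x : ℝ) / n = _
    ring
  have e2 : (pt n (x', y)).im - (pt n (x, y)).im = 0 := by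
    show (y : ℝ) / n - (y : ℝ) / n = _
    ring
  rw [e1, e2, abs_zero, add_zero, abs_div, Nat.abs_cast]
  refine div_le_div_of_nonneg_right ?_ hn'.le
  rw [abs_le]
  rcases h with h | h | h
  · rw [h]; constructor <;> linarith
  · rw [h]; push_cast; constructor <;> linarith
  · rw [h]; push_cast; constructor <;> linarith

theorem latt_step {n : ℕ} (hn : 0 < n) {B : Set Vtx} {a b : ℂ}
    (ha : ∀ w, dist (pt n w) a ≤ 2 / n → w ∉ B) (hb : ∀ w, dist (pt n w) b ≤ 2 / n → w ∉ B)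
    (hab : dist a b < 1 / n) :
    Reach {e : Edg | src e ∉ B ∧ tgt e ∉ B} (nr n a) (nr n b) := by
  have hn' : (0:ℝ) < n := by exact_mod_cast hn
  have hpos : (0:ℝ) < 1 / n := by positivity
  have h2n : (2:ℝ) / n = 1 / n + 1 / n := by ring
  have hc : ∀ x y : ℝ, |x - y| ≤ dist a b → |(n : ℝ) * x - n * y| < 1 := by
    intro x y h
    rw [← mul_sub, abs_mul, Nat.abs_cast]
    have h1 : |x - y| < 1 / n := lt_of_le_of_lt h hab
    rw [lt_div_iff₀ hn'] at h1
    linarith
  have hre : |a.re - b.re| ≤ dist a b := by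
    rw [dist_eq_norm, ← Complex.sub_re]
    exact Complex.abs_re_le_norm _
  have him : |a.im - b.im| ≤ dist a b := by
    rw [dist_eq_norm, ← Complex.sub_im]
    exact Complex.abs_im_le_norm _
  have h1 := round_step (hc _ _ hre)
  have h2 := round_step (hc _ _ him)
  have na : nr n a ∉ B := ha _ ((nr_near hn a).trans (by rw [h2n]; linarith))
  have nb : nr n b ∉ B := hb _ ((nr_near hn b).trans (by rw [h2n]; linarith))
  have hm : ((round ((n : ℝ) * b.re), round ((n : ℝ) * a.im)) : Vtx) ∉ B := by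
    apply ha
    have h3 := pt_near1 hn (y := round ((n : ℝ) * a.im)) h1
    have h4 := nr_near hn a
    have h5 := dist_triangle (pt n (round ((n : ℝ) * b.re), round ((n : ℝ) * a.im)))
      (pt n (nr n a)) a
    have h6 : dist (pt n (round ((n : ℝ) * b.re), round ((n : ℝ) * a.im))) (pt n (nr n a)) ≤
      1 / n := h3
    rw [h2n]
    linarith
  exact (hstep na hm h1).trans (vstep hm nb h2)

theorem latt {n : ℕ} (hn : 0 < n) {B : Set Vtx} {g : C(unitInterval, ℂ)}
    (hB : ∀ t w, dist (pt n w) (g t) ≤ 2 / n → w ∉ B) :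
    Reach {e : Edg | src e ∉ B ∧ tgt e ∉ B} (nr n (g 0)) (nr n (g 1)) := by
  have hn' : (0:ℝ) < n := by exact_mod_cast hn
  have hpos : (0:ℝ) < 1 / n := by positivity
  have huc : UniformContinuous g := CompactSpace.uniformContinuous_of_continuous g.continuous
  rw [Metric.uniformContinuous_iff] at huc
  obtain ⟨δ, hδ, hg⟩ := huc (1 / n) hpos
  obtain ⟨N, hN⟩ := exists_nat_one_div_lt hδ
  have hN1 : (0:ℝ) < ((N + 1 : ℕ) : ℝ) := by positivity
  have key : ∀ i : ℕ, Reach {e : Edg | src e ∉ B ∧ tgt e ∉ B} (nr n (g 0))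
      (nr n (g (Set.projIcc (0:ℝ) 1 zero_le_one ((i : ℝ) / ((N + 1 : ℕ) : ℝ))))) := by
    intro i
    induction i with
    | zero =>
      have e : Set.projIcc (0:ℝ) 1 zero_le_one (((0 : ℕ) : ℝ) / ((N + 1 : ℕ) : ℝ)) = 0 := by
        rw [Nat.cast_zero, zero_div]
        exact Set.projIcc_left _
      rw [e]
      exact Reach.refl _ _
    | succ i ih =>
      refine ih.trans (latt_step hn (hB _) (hB _) (hg ?_))
      rw [Subtype.dist_eq, Real.dist_eq]
      refine lt_of_le_of_lt (Set.abs_projIcc_sub_projIcc (zero_le_one' ℝ)) ?_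
      have e : (i : ℝ) / ((N + 1 : ℕ) : ℝ) - ((i + 1 : ℕ) : ℝ) / ((N + 1 : ℕ) : ℝ) =
          -(1 / ((N : ℝ) + 1)) := by
        push_cast
        field_simp
        ring
      rw [e, abs_neg, abs_of_pos (by positivity)]
      exact hN
  have h1 := key (N + 1)
  have e : Set.projIcc (0:ℝ) 1 zero_le_one (((N + 1 : ℕ) : ℝ) / ((N + 1 : ℕ) : ℝ)) = 1 := by
    rw [div_self hN1.ne']
    exact Set.projIcc_right _
  rw [e] at h1
  exact h1

/-! ### The event -/

/-- The curve visits the disc `B(z, r)`, leaves the disc of radius `ρ`, and some path `g` from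
`B(z, r)` to the half plane `re < -1` keeps a distance larger than `ζ` from the curve. -/
def EvP (z : ℂ) (r ρ ζ : ℝ) : Set Curve :=
  {c | (∃ s, dist (c.path s) z < r) ∧ (∃ s, ρ < dist (c.path s) z) ∧
    ∃ g : C(unitInterval, ℂ), dist (g 0) z < r ∧ (g 1).re < -1 ∧
      ∀ s t, ζ < dist (g t) (c.path s)}

/-- the path `g` keeps away from the cluster -/
theorem avoid {n : ℕ} {ζ : ℝ} (hn : 0 < n) (hζ : 2 / n ≤ ζ) {F : Finset Plain.Edge}
    (hF : F ⊆ Plain.edges n) {v : ℤ × ℤ} (hv : v ∈ Plain.box n) {g : C(unitInterval, ℂ)}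
    (h1 : (g 1).re < -1) (hg : ∀ t, ∀ y ∈ outerBoundary n F v, ζ < dist (g t) y) (t : unitInterval)
    (w : Vtx) (hw : dist (pt n w) (g t) ≤ 2 / n) : w ∉ Plain.cluster F v := by
  have hζ0 : 0 ≤ ζ := le_trans (by positivity) hζ
  have hcl : IsClosed (body n F v) := (CPT_isCompact_body n F v).isClosed
  have hop := unb_open hcl
  have hhalf : {z : ℂ | z.re < 0} ⊆ unb (body n F v) :=
    half_unb (fun z hz => (CPT_body_square hn hF hv hz).1.1)
  have h2 : Set.range g ⊆ unb (body n F v) := by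
    refine sub_of_frontier hop (isPreconnected_range g.continuous) ⟨g 1, ⟨1, rfl⟩, ?_⟩ ?_
    · apply hhalf
      show (g 1).re < 0
      linarith
    · rintro x ⟨s, rfl⟩ hx
      have h3 := hg s _ hx
      rw [dist_self] at h3
      linarith
  have h3 : Metric.closedBall (g t) ζ ⊆ unb (body n F v) := by
    refine sub_of_frontier hop (convex_closedBall _ _).isPreconnected
      ⟨g t, Metric.mem_closedBall_self hζ0, h2 ⟨t, rfl⟩⟩ ?_
    intro x hx hx2
    have h4 := hg t _ hx2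
    rw [Metric.mem_closedBall, dist_comm] at hx
    linarith
  intro hwc
  have h4 : pt n w ∈ unb (body n F v) := h3 (Metric.mem_closedBall.2 (hw.trans hζ))
  apply h4.1
  left
  exact Set.mem_biUnion hwc (Set.mem_singleton _)

/-- the deterministic part -/
theorem detO {z : ℂ} {r d ζ : ℝ} {n : ℕ} (hn : 0 < n) (hδr : 1 / (n : ℝ) ≤ r)
    (hd : 256 * r ≤ d) (hζ : 2 / (n : ℝ) ≤ ζ) (hball : Metric.ball z d ⊆ Sq)
    {F : Finset Plain.Edge} (hF : F ⊆ Plain.edges n) {v : ℤ × ℤ} (hv : v ∈ Plain.box n)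
    {c : Curve} (hT : IsTrace n F v c) (hE : c ∈ EvP z r (d / 2) ζ) :
    A3v (ctc (1 / n) z) (⌈r / (1 / (n : ℝ))⌉₊ + 3 + 2) (⌊d / (8 * (1 / (n : ℝ)))⌋₊ - 2) ↑F := by
  have hδ : (0:ℝ) < 1 / n := by positivity
  have hn' : (0:ℝ) < n := by exact_mod_cast hn
  obtain ⟨⟨s, h1⟩, ⟨u, h3⟩, g, g0, g1, hg⟩ := hE
  have hrng := (H342T.t_RNG H342T.t_ORB H342T.t_POL n F v c hn hF hv hT).2
  obtain ⟨σ, N, hN, hσ, _, hper, hmin, hpath⟩ := hT
  have hr : 0 < r := hδ.trans_le hδr
  have hd0 : 0 < d := by linarith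
  have hreach : ∀ j, Reach (↑F : Set Edg) v (orb (↑F) σ j).1 := by
    intro j
    rw [Plain.mem_cluster] at hσ
    exact hσ.trans (pb_reach _ _ _)
  have hst' : ∀ k < N, dist (pt n (orb (↑F) σ k).1) (pt n (orb (↑F) σ (k + 1)).1) ≤ 1 / (n : ℝ) :=
    fun k _ => pt_step' hn _ σ k
  obtain ⟨i, hiN, _, hi⟩ := poly_close hN hst' s
  obtain ⟨j, hjN, _, hj⟩ := poly_close hN hst' u
  rw [← hpath] at hi hj
  have pi : dist (pt n (orb (↑F) σ i).1) z ≤ r + 1 / n := by
    have := dist_triangle_left (pt n (orb (↑F) σ i).1) z (c.path s)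
    linarith
  have pj : d / 2 - 1 / n < dist (pt n (orb (↑F) σ j).1) z := by
    have := dist_triangle (c.path u) (pt n (orb (↑F) σ j).1) z
    linarith
  obtain ⟨s1, s2, _, _⟩ := sizes hδ hδr hd
  obtain ⟨b1, b2, b3, b4⟩ := dom_boxC hn (by linarith) hball
  set k := ⌊d / (8 * (1 / (n : ℝ)))⌋₊ with hk
  set ρ := ⌈r / (1 / (n : ℝ))⌉₊ with hρ
  have hnb : ∀ x : ℕ, d / 2 - 1 / n < dist (pt n (orb (↑F) σ x).1) z →
      ¬ BX (ctc (1 / n) z) (k - 2) (orb (↑F) σ x).1 := by
    intro x hx hin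
    have hin' : inR ((ctc (1 / n) z).1 - k) ((ctc (1 / n) z).1 + k) ((ctc (1 / n) z).2 - k)
        ((ctc (1 / n) z).2 + k) (orb (↑F) σ x).1 := by
      unfold BX inR at hin
      unfold inR
      omega
    have h5 := box_nearC hn hin'
    have hkl : (k : ℝ) ≤ d / (8 * (1 / (n : ℝ))) := Nat.floor_le (by positivity)
    have h6 : 2 * (1 / (n : ℝ)) * (k : ℝ) ≤ d / 4 := by
      calc 2 * (1 / (n : ℝ)) * (k : ℝ) ≤
            2 * (1 / (n : ℝ)) * (d / (8 * (1 / (n : ℝ)))) :=
            mul_le_mul_of_nonneg_left hkl (by positivity)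
        _ = d / 4 := by
            have : (n : ℝ) ≠ 0 := by positivity
            field_simp
            norm_num
    linarith
  have hin : ∀ w : Vtx, dist (pt n w) z ≤ r + 1 / n → BX (ctc (1 / n) z) (ρ + 3 + 2) w := by
    intro w hw
    have h5 := near_boxC hn hw
    rw [← hρ] at h5
    unfold inR at h5
    unfold BX inR
    omega
  have hav := avoid hn hζ hF hv g1 (fun t y hy => by
    rw [← hrng] at hy
    obtain ⟨s', rfl⟩ := hy
    exact hg s' t)
  have hl := latt hn (B := Plain.cluster F v) hav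
  refine A3v_of (F := (↑F : Set Edg)) (v := v) (by omega) (hin _ pi) (hreach i) (hnb j pj)
    (hreach j) (w := nr n (g 0)) (w' := nr n (g 1)) ?_ ?_ ?_
  · apply hin
    have h5 := nr_near hn (g 0)
    have h6 := dist_triangle (pt n (nr n (g 0))) (g 0) z
    linarith
  · intro hB
    have h5 : (nr n (g 1)).1 = round ((n : ℝ) * (g 1).re) := rfl
    have h6 : 0 ≤ (nr n (g 1)).1 := by
      have h7 := hB.1.1
      omega
    rw [h5] at h6
    have h7 := abs_sub_round ((n : ℝ) * (g 1).re)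
    rw [abs_le] at h7
    have h8 : (0:ℝ) ≤ round ((n : ℝ) * (g 1).re) := by exact_mod_cast h6
    have h9 : (n : ℝ) * (g 1).re < (n : ℝ) * (-1) := mul_lt_mul_of_pos_left g1 hn'
    have h10 : (1:ℝ) ≤ n := by exact_mod_cast hn
    linarith
  · have hs : {e : Edg | src e ∉ Plain.cluster F v ∧ tgt e ∉ Plain.cluster F v} =
        {e : Edg | ¬ Reach (↑F : Set Edg) v (src e) ∧ ¬ Reach (↑F : Set Edg) v (tgt e)} := by
      ext e
      rw [Set.mem_ofPred_eq, Set.mem_ofPred_eq, Plain.mem_cluster, Plain.mem_cluster]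
    rw [← hs]
    exact hl

end Pool.Agent.W424.OD
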