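import Pool.Agent.W424.OD.Det

/-!
Upper bound for the dimension of the outer boundary from an upper bound for the three-arm
probability (with any exponent).
-/

namespace Pool.Agent.W424.OD

open H974 H12S Finset H389NS H984P H984N H342P H342L H342T
open MeasureTheory Filter Topology Pool.Agent.W92.DP Pool.Agent.W822.PD Pool.Agent.W462.DPL
open Pool.Agent.W978.PDUL
open scoped ENNReal NNReal

/-- the distance of two paths is attained -/
theorem min_dist (g f : C(unitInterval, ℂ)) :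
    ∃ s0 t0, ∀ s t, dist (g t0) (f s0) ≤ dist (g t) (f s) := by
  have hc : Continuous (fun p : unitInterval × unitInterval => dist (g p.2) (f p.1)) := by
    fun_prop
  obtain ⟨p, _, hp⟩ := isCompact_univ.exists_isMinOn (Set.univ_nonempty) hc.continuousOn
  refine ⟨p.1, p.2, fun s t => ?_⟩
  exact hp (Set.mem_univ (s, t))

theorem EvP_open (z : ℂ) (r ρ ζ : ℝ) : IsOpen (EvP z r ρ ζ) := by
  rw [Metric.isOpen_iff]
  rintro c ⟨⟨s, h1⟩, ⟨u, h2⟩, g, g0, g1, hg⟩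
  obtain ⟨s0, t0, hmin⟩ := min_dist g c.path
  set ε : ℝ := min (min (r - dist (c.path s) z) (dist (c.path u) z - ρ))
    (dist (g t0) (c.path s0) - ζ) with hε
  have h3 := hg s0 t0
  have hpos : 0 < ε :=
    lt_min (lt_min (by linarith) (by linarith)) (by linarith)
  have e1 : ε ≤ r - dist (c.path s) z := (min_le_left _ _).trans (min_le_left _ _)
  have e2 : ε ≤ dist (c.path u) z - ρ := (min_le_left _ _).trans (min_le_right _ _)
  have e3 : ε ≤ dist (g t0) (c.path s0) - ζ := min_le_right _ _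
  refine ⟨ε, hpos, fun c' hcc' => ?_⟩
  rw [Metric.mem_ball, Curve.dist_def, cdist_eq] at hcc'
  obtain ⟨φ, hφ⟩ := exists_lt_of_ciInf_lt hcc'
  have key : ∀ x : unitInterval, dist (c'.path x) (c.path (φ x)) < ε := by
    intro x
    have h := ContinuousMap.dist_apply_le_dist (f := c'.path) (g := rep c.path φ) x
    rw [rep_apply] at h
    exact lt_of_le_of_lt h hφ
  have key2 : ∀ x : unitInterval, dist (c'.path (φ.symm x)) (c.path x) < ε := by
    intro x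
    have h := key (φ.symm x)
    rwa [OrderIso.apply_symm_apply] at h
  refine ⟨⟨φ.symm s, ?_⟩, ⟨φ.symm u, ?_⟩, g, g0, g1, fun x t => ?_⟩
  · have h3 := dist_triangle (c'.path (φ.symm s)) (c.path s) z
    have h4 := key2 s
    linarith
  · have h3 := dist_triangle_left (c.path u) z (c'.path (φ.symm u))
    have h4 := key2 u
    linarith
  · have h4 := key x
    have h5 := hmin (φ x) t
    have h6 := dist_triangle (g t) (c'.path x) (c.path (φ x))
    linarith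

/-- the union over all margins -/
def EvQ (z : ℂ) (r ρ : ℝ) : Set Curve := ⋃ j : ℕ, EvP z r ρ (1 / ((j : ℝ) + 1))

theorem EvQ_open (z : ℂ) (r ρ : ℝ) : IsOpen (EvQ z r ρ) :=
  isOpen_iUnion fun _ => EvP_open _ _ _ _

theorem EvP_mono {z : ℂ} {r ρ ζ ζ' : ℝ} (h : ζ' ≤ ζ) : EvP z r ρ ζ ⊆ EvP z r ρ ζ' := by
  rintro c ⟨h1, h2, g, g0, g1, hg⟩
  exact ⟨h1, h2, g, g0, g1, fun s t => lt_of_le_of_lt h (hg s t)⟩

/-- The set whose dimension is bounded. -/
def SO (η : ℝ) (c : Curve) : Set ℂ :=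
  {z | Set.range c.path ⊆ Sqc ∧ z ∈ oB (Set.range c.path) ∧ ∃ u, η ≤ dist (c.path u) z}

theorem range_closed (c : Curve) : IsClosed (Set.range c.path) :=
  (isCompact_range c.path.continuous).isClosed

/-- The complement of the closed unit square is connected. -/
theorem compl_conn : IsPreconnected Sqcᶜ := by
  have h1 : IsPreconnected {z : ℂ | z.re < 0} := (convex_halfSpace_re_lt 0).isPreconnected
  have h2 : IsPreconnected {z : ℂ | z.im < 0} := (convex_halfSpace_im_lt 0).isPreconnected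
  have h3 : IsPreconnected {z : ℂ | 1 < z.re} := (convex_halfSpace_re_gt 1).isPreconnected
  have h4 : IsPreconnected {z : ℂ | 1 < z.im} := (convex_halfSpace_im_gt 1).isPreconnected
  have h12 := IsPreconnected.union' (s := {z : ℂ | z.re < 0}) (t := {z : ℂ | z.im < 0})
    ⟨⟨-1, -1⟩, by show (-1 : ℝ) < 0; norm_num, by show (-1 : ℝ) < 0; norm_num⟩ h1 h2
  have h123 := IsPreconnected.union' (s := {z : ℂ | z.re < 0} ∪ {z : ℂ | z.im < 0})
    (t := {z : ℂ | 1 < z.re})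
    ⟨⟨2, -1⟩, Or.inr (by show (-1 : ℝ) < 0; norm_num), by show (1 : ℝ) < 2; norm_num⟩ h12 h3
  have h1234 := IsPreconnected.union' (s := ({z : ℂ | z.re < 0} ∪ {z : ℂ | z.im < 0}) ∪
    {z : ℂ | 1 < z.re}) (t := {z : ℂ | 1 < z.im})
    ⟨⟨2, 2⟩, Or.inr (by show (1 : ℝ) < 2; norm_num), by show (1 : ℝ) < 2; norm_num⟩ h123 h4
  have e : Sqcᶜ = (({z : ℂ | z.re < 0} ∪ {z : ℂ | z.im < 0}) ∪ {z : ℂ | 1 < z.re}) ∪
      {z : ℂ | 1 < z.im} := by
    ext z
    unfold Sqc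
    simp only [Set.mem_compl_iff, Set.mem_ofPred_eq, Set.mem_union, not_and_or, not_le]
    tauto
  rw [e]
  exact h1234

theorem Sqc_bdd : Bornology.IsBounded Sqc := by
  rw [Metric.isBounded_iff_subset_closedBall (0 : ℂ)]
  refine ⟨2, fun z hz => ?_⟩
  obtain ⟨h1, h2, h3, h4⟩ := hz
  rw [mem_closedBall_zero_iff]
  refine (Complex.norm_le_abs_re_add_abs_im z).trans ?_
  rw [abs_of_nonneg h1, abs_of_nonneg h3]
  linarith

/-- points of the unbounded component can be joined to `-2` -/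
theorem unb_join {K : Set ℂ} (hK : IsClosed K) (hS : K ⊆ Sqc) {w : ℂ} (hw : w ∈ unb K) :
    ∃ g : C(unitInterval, ℂ), g 0 = w ∧ g 1 = -2 ∧ ∀ t, g t ∉ K := by
  have hsub : Sqcᶜ ⊆ Kᶜ := Set.compl_subset_compl.2 hS
  obtain ⟨y, hy1, hy2⟩ : ∃ y ∈ connectedComponentIn Kᶜ w, y ∉ Sqc := by
    by_contra hcon
    push Not at hcon
    exact hw.2 (Sqc_bdd.subset hcon)
  have h2 : (-2 : ℂ) ∈ Sqcᶜ := by
    intro h
    have h3 := h.1
    norm_num at h3
  have h4 : (-2 : ℂ) ∈ connectedComponentIn Kᶜ y :=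
    compl_conn.subset_connectedComponentIn hy2 hsub h2
  rw [← connectedComponentIn_eq hy1] at h4
  have hopen : IsOpen (connectedComponentIn Kᶜ w) := hK.isOpen_compl.connectedComponentIn
  have hconn : IsConnected (connectedComponentIn Kᶜ w) :=
    isConnected_connectedComponentIn_iff.2 hw.1
  have hpc := (hopen.isConnected_iff_isPathConnected).1 hconn
  obtain ⟨γ, hγ⟩ := hpc.joinedIn w (mem_connectedComponentIn hw.1) (-2) h4
  refine ⟨γ.toContinuousMap, γ.source, γ.target, fun t => ?_⟩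
  exact connectedComponentIn_subset _ _ (hγ t)

/-- A point of the outer boundary near `z` forces the event. -/
theorem EvQ_of {η r ρ : ℝ} {c : Curve} {z w : ℂ} (hw : w ∈ SO η c)
    (hwz : dist w z < r) (hρ : ρ + r ≤ η) : c ∈ EvQ z r ρ := by
  obtain ⟨hS, hw1, u, hu⟩ := hw
  have hcl := range_closed c
  obtain ⟨s, hs⟩ := oB_sub hcl hw1
  have h1 : w ∈ closure (unb (Set.range c.path)) := frontier_subset_closure hw1
  rw [mem_closure_iff] at h1
  obtain ⟨y, hy1, hy2⟩ := h1 (Metric.ball z r) Metric.isOpen_ball (Metric.mem_ball.2 hwz)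
  obtain ⟨g, g0, g1, hg⟩ := unb_join hcl hS hy2
  obtain ⟨s0, t0, hmin⟩ := min_dist g c.path
  have hpos : 0 < dist (g t0) (c.path s0) := by
    rw [dist_pos]
    intro h
    exact hg t0 ⟨s0, h.symm⟩
  obtain ⟨j, hj⟩ := exists_nat_one_div_lt hpos
  refine Set.mem_iUnion.2 ⟨j, ⟨s, by rw [hs]; exact hwz⟩, ⟨u, ?_⟩, g, ?_, ?_, ?_⟩
  · have h6 := dist_triangle (c.path u) z w
    rw [dist_comm z w] at h6
    linarith
  · rw [g0]
    exact Metric.mem_ball.1 hy1
  · rw [g1]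
    norm_num
  · intro s t
    exact lt_of_lt_of_le hj (hmin s t)

/-! ### Probability -/

/-- Upper bound for the three-arm probability with exponent `a`. -/
def UA (a : ℝ) : Prop := ∃ C : ℝ, 0 < C ∧ ∀ (c : ℤ × ℤ) (d k : ℕ), 1 ≤ d → d ≤ k →
  ∀ S : Finset Edg, blk c k ⊆ S →
    PQ (1/2) S (fun F => A3v c d k ↑F) ≤ C * ((d:ℝ) / k) ^ a

/-- probability bound -/
theorem prob_leO {a : ℝ} (ha : 0 < a) (hA : UA a)
    {sel : (n : ℕ) → Finset Plain.Edge → ℤ × ℤ} {γ : (n : ℕ) → Finset Plain.Edge → Curve}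
    (hT : Tr sel γ) :
    ∃ C : ℝ, 0 < C ∧ ∀ (z : ℂ) (r d ζ : ℝ) (n : ℕ), 0 < r → r ≤ d →
      Metric.ball z d ⊆ Sq → 0 < n → 1 / (n : ℝ) ≤ r → 2 / (n : ℝ) ≤ ζ →
        (lawOf n (γ n) : Measure Curve) (EvP z r (d / 2) ζ) ≤
          ENNReal.ofReal (C * (r / d) ^ a) := by
  obtain ⟨Ca, hCa, hA'⟩ := hA
  refine ⟨(Ca + 1) * 256 ^ a, by positivity, ?_⟩
  intro z r d ζ n hr hrd hball hn hδr hζ
  have hδ : (0:ℝ) < 1 / n := by positivity
  have hd0 : 0 < d := hr.trans_le hrd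
  rw [lawOf_apply _ _ (EvP_open z r (d / 2) ζ).measurableSet]
  apply ENNReal.ofReal_le_ofReal
  have hq : 0 < r / d := by positivity
  have hRHS : (Ca + 1) * 256 ^ a * (r / d) ^ a = (Ca + 1) * (256 * (r / d)) ^ a := by
    rw [Real.mul_rpow (by norm_num) hq.le]
    ring
  rw [hRHS]
  by_cases h256 : 256 * r ≤ d
  · obtain ⟨s1, s2, s3, s4⟩ := sizes hδ hδr h256
    obtain ⟨b1, b2, b3, b4⟩ := dom_boxC hn (by linarith) hball
    have hsub : blk (ctc (1 / n) z) ⌊d / (8 * (1 / (n : ℝ)))⌋₊ ⊆ RE 0 n 0 n :=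
      RE_subset b1.le b2.le b3.le b4.le
    have hsub1 : ∀ k : ℕ, k ≤ ⌊d / (8 * (1 / (n : ℝ)))⌋₊ →
        blk (ctc (1 / n) z) k ⊆ RE 0 n 0 n := by
      intro k hk
      refine (RE_subset ?_ ?_ ?_ ?_).trans hsub <;> omega
    have h1 := hA' (ctc (1 / n) z) (⌈r / (1 / (n : ℝ))⌉₊ + 3 + 2)
      (⌊d / (8 * (1 / (n : ℝ)))⌋₊ - 2) (by omega) s2 (RE 0 n 0 n) (hsub1 _ (by omega))
    have hmono : Plain.prob n (fun F => γ n F ∈ EvP z r (d / 2) ζ) ≤
        PQ (1/2) (RE 0 n 0 n) (fun F =>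
          A3v (ctc (1 / n) z) (⌈r / (1 / (n : ℝ))⌉₊ + 3 + 2)
            (⌊d / (8 * (1 / (n : ℝ)))⌋₊ - 2) ↑F) := by
      refine Plain.prob_le_of_pr ?_
      intro F hF hE
      exact detO hn hδr h256 hζ hball hF (hT.1 n F hn hF).1 (hT.2 n F hn hF) hE
    have hpow : (((⌈r / (1 / (n : ℝ))⌉₊ + 3 + 2 : ℕ) : ℝ) /
        ((⌊d / (8 * (1 / (n : ℝ)))⌋₊ - 2 : ℕ) : ℝ)) ^ a ≤ (256 * (r / d)) ^ a :=
      Real.rpow_le_rpow (by positivity) s4 ha.le
    have hx0 : 0 ≤ (256 * (r / d)) ^ a := by positivity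
    have h3 := mul_le_mul_of_nonneg_left hpow hCa.le
    have h5 := hmono.trans (h1.trans h3)
    refine h5.trans ?_
    nlinarith
  · push Not at h256
    have h1 : Plain.prob n (fun F => γ n F ∈ EvP z r (d / 2) ζ) ≤ 1 := by
      rw [Plain.prob_eq]
      exact Pr_le_one okh _ _
    refine h1.trans ?_
    have h2 : 1 ≤ 256 * (r / d) := by
      rw [← mul_div_assoc, le_div_iff₀ hd0]
      linarith
    have h3 : 1 ≤ (256 * (r / d)) ^ a := Real.one_le_rpow h2 ha.le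
    nlinarith

/-! ### Covering -/

open Classical in
/-- the event which belongs to a covering set -/
noncomputable def HO (D : Set ℂ) (d N : ℝ) (a b : ℤ) : Set Curve :=
  if h : (H934F.t10_sq N a b ∩ H934F.t10_A D d).Nonempty then EvQ h.some (2 / N) (d / 2) else ∅

theorem HO_open (D : Set ℂ) (d N : ℝ) (a b : ℤ) : IsOpen (HO D d N a b) := by
  unfold HO
  split_ifs
  · exact EvQ_open _ _ _
  · exact isOpen_empty

theorem HO_of {D : Set ℂ} {d N η : ℝ} (hdη : d ≤ η) (hN : 2 / N ≤ d / 2) {a b : ℤ} {p : Curve}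
    {A : Set ℂ} (h : ((SO η p ∩ A) ∩ H934F.t10_U D d N a b).Nonempty) :
    p ∈ HO D d N a b := by
  obtain ⟨w, ⟨hw1, _⟩, hw2⟩ := h
  unfold H934F.t10_U at hw2
  unfold HO
  split_ifs at hw2 ⊢ with h
  · rw [Metric.mem_ball] at hw2
    exact EvQ_of hw1 hw2 (by linarith)
  · exact absurd hw2 (Set.notMem_empty _)

theorem lim0 (M : ℝ) (C d t a : ℝ) (hd : 0 < d) (ht : 2 - a < t) (m0 : ℕ) (hm0 : 1 ≤ m0) :
    Tendsto (fun m : ℕ => (2 * M * ((m + m0 : ℕ) : ℝ)) ^ 2 * ((4 / ((m + m0 : ℕ) : ℝ)) ^ t *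
      (C * ((2 / ((m + m0 : ℕ) : ℝ)) / d) ^ a))) atTop (𝓝 0) := by
  have h1 : Tendsto (fun m : ℕ => ((m + m0 : ℕ) : ℝ)) atTop atTop :=
    tendsto_natCast_atTop_atTop.comp (tendsto_add_atTop_nat m0)
  have h2 : Tendsto (fun x : ℝ => x ^ (-(t - (2 - a)))) atTop (𝓝 0) :=
    tendsto_rpow_neg_atTop (by linarith)
  have h3 := (h2.comp h1).const_mul ((2 * M) ^ 2 * (4 ^ t * (C * (2 / d) ^ a)))
  rw [mul_zero] at h3
  refine h3.congr ?_
  intro m
  have hpos : (0 : ℝ) < ((m + m0 : ℕ) : ℝ) := by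
    have : 0 < m + m0 := by omega
    exact_mod_cast this
  set x : ℝ := ((m + m0 : ℕ) : ℝ) with hx
  simp only [Function.comp]
  rw [← hx]
  have e1 : (4 / x) ^ t = 4 ^ t * x ^ (-t) := by
    rw [Real.div_rpow (by norm_num) hpos.le, Real.rpow_neg hpos.le]
    ring
  have e2 : ((2 / x) / d) ^ a = (2 / d) ^ a * x ^ (-a : ℝ) := by
    have : (2 / x) / d = (2 / d) / x := by
      field_simp
    rw [this, Real.div_rpow (by positivity) hpos.le, Real.rpow_neg hpos.le]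
    ring
  have e3 : x ^ (-(t - (2 - a))) = x ^ (2 : ℝ) * (x ^ (-t) * x ^ (-a : ℝ)) := by
    rw [← Real.rpow_add hpos, ← Real.rpow_add hpos]
    congr 1
    ring
  rw [e1, e2, e3, Real.rpow_two]
  ring

/-- one scale -/
theorem one_scaleO {D : Set ℂ} {M : ℕ} (hM : ∀ z ∈ D, |z.re| < M ∧ |z.im| < M) {C d η a : ℝ}
    (hd : 0 < d) (hdη : d ≤ η) {μ : ProbabilityMeasure Curve}
    (hp : ∀ (z : ℂ) (r : ℝ), 0 < r → r ≤ d → Metric.ball z d ⊆ D →
      (μ : Measure Curve) (EvQ z r (d / 2)) ≤ ENNReal.ofReal (C * (r / d) ^ a)) {t : ℝ}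
    (ht0 : 0 < t) (ht : 2 - a < t) :
    ∀ᵐ p ∂(μ : Measure Curve), dimH (SO η p ∩ H934F.t10_A D d) ≤ ENNReal.ofReal t := by
  obtain ⟨m1, hm1⟩ := exists_nat_gt (4 / d)
  set m0 : ℕ := m1 + 1 with hm0
  have hN : ∀ m : ℕ, (0 : ℝ) < ((m + m0 : ℕ) : ℝ) := by
    intro m
    have : 0 < m + m0 := by omega
    exact_mod_cast this
  have hNd : ∀ m : ℕ, 2 / ((m + m0 : ℕ) : ℝ) ≤ d / 2 := by
    intro m
    rw [div_le_iff₀ (hN m)]
    rw [div_lt_iff₀ hd] at hm1
    have : (m1 : ℝ) ≤ ((m + m0 : ℕ) : ℝ) := by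
      have : m1 ≤ m + m0 := by omega
      exact_mod_cast this
    nlinarith
  have hsub : H934F.t10_A D d ⊆ D := fun z hz => hz (Metric.mem_ball_self hd)
  have hμ : Tendsto (fun _ : ℕ => μ) atTop (𝓝 μ) := tendsto_const_nhds
  refine upperG ht0 hμ (fun p => SO η p ∩ H934F.t10_A D d)
    (ι := fun m => Fin (2 * M * (m + m0)) × Fin (2 * M * (m + m0)))
    (fun m i => H934F.t10_U D d ((m + m0 : ℕ) : ℝ) ((i.1 : ℕ) - (M * (m + m0) : ℕ) : ℤ)
      ((i.2 : ℕ) - (M * (m + m0) : ℕ) : ℤ))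
    (fun m i => HO D d ((m + m0 : ℕ) : ℝ) ((i.1 : ℕ) - (M * (m + m0) : ℕ) : ℤ)
      ((i.2 : ℕ) - (M * (m + m0) : ℕ) : ℤ))
    (fun m i => HO_open _ _ _ _ _) (fun m i p h => HO_of hdη (hNd m) h)
    (fun m => ENNReal.ofReal (4 / ((m + m0 : ℕ) : ℝ))) ?_
    (fun m i => H934F.t10_U_ediam _ _ _ _ _)
    ?_ (fun m _ => ENNReal.ofReal (C * ((2 / ((m + m0 : ℕ) : ℝ)) / d) ^ a)) ?_ ?_
  · -- the radii tend to zero
    have h1 : Tendsto (fun m : ℕ => ((m + m0 : ℕ) : ℝ)) atTop atTop :=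
      tendsto_natCast_atTop_atTop.comp (tendsto_add_atTop_nat m0)
    have h2 : Tendsto (fun m : ℕ => 4 / ((m + m0 : ℕ) : ℝ)) atTop (𝓝 0) :=
      h1.const_div_atTop 4
    have h3 := ENNReal.tendsto_ofReal h2
    rwa [ENNReal.ofReal_zero] at h3
  · -- covering
    rintro m p z ⟨_, hz⟩
    obtain ⟨h1, h2⟩ := hM z (hsub hz)
    have hb : ∀ y : ℝ, |y| < M → -((M * (m + m0) : ℕ) : ℤ) ≤ ⌊((m + m0 : ℕ) : ℝ) * y⌋ ∧
        ⌊((m + m0 : ℕ) : ℝ) * y⌋ < ((M * (m + m0) : ℕ) : ℤ) := by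
      intro y hy
      rw [abs_lt] at hy
      have hn := hN m
      constructor
      · rw [Int.le_floor]
        push_cast at hn ⊢
        nlinarith
      · rw [Int.floor_lt]
        push_cast at hn ⊢
        nlinarith
    obtain ⟨h3, h4⟩ := hb _ h1
    obtain ⟨h5, h6⟩ := hb _ h2
    refine Set.mem_iUnion.mpr ⟨(⟨(⌊((m + m0 : ℕ) : ℝ) * z.re⌋ + (M * (m + m0) : ℕ)).toNat, ?_⟩,
      ⟨(⌊((m + m0 : ℕ) : ℝ) * z.im⌋ + (M * (m + m0) : ℕ)).toNat, ?_⟩), ?_⟩
    · rw [Int.toNat_lt (by omega)]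
      have : ((2 * M * (m + m0) : ℕ) : ℤ) = 2 * ((M * (m + m0) : ℕ) : ℤ) := by
        push_cast; ring
      omega
    · rw [Int.toNat_lt (by omega)]
      have : ((2 * M * (m + m0) : ℕ) : ℤ) = 2 * ((M * (m + m0) : ℕ) : ℤ) := by
        push_cast; ring
      omega
    · have hcov := H934F.t10_U_cover (N := ((m + m0 : ℕ) : ℝ)) (hN m) hz
      simp only
      rw [Int.toNat_of_nonneg (by omega), Int.toNat_of_nonneg (by omega)]
      rw [add_sub_cancel_right, add_sub_cancel_right]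
      exact hcov
  · -- probabilities
    intro m i
    refine (Eventually.of_forall fun n => ?_).frequently
    unfold HO
    split_ifs with h
    · exact hp h.some (2 / ((m + m0 : ℕ) : ℝ)) (div_pos two_pos (hN m))
        ((hNd m).trans (by linarith)) h.some_mem.2
    · rw [measure_empty]
      exact zero_le
  · -- the sums tend to zero
    have hl := ENNReal.tendsto_ofReal (lim0 M C d t a hd ht m0 (by omega))
    rw [ENNReal.ofReal_zero] at hl
    refine tendsto_of_tendsto_of_tendsto_of_le_of_le tendsto_const_nhds hl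
      (fun m => zero_le) (fun m => ?_)
    have hn := hN m
    have h4 : 0 ≤ (4 : ℝ) / ((m + m0 : ℕ) : ℝ) := by positivity
    calc ∑ i : Fin (2 * M * (m + m0)) × Fin (2 * M * (m + m0)),
          Metric.ediam (H934F.t10_U D d ((m + m0 : ℕ) : ℝ) ((i.1 : ℕ) - (M * (m + m0) : ℕ) : ℤ)
            ((i.2 : ℕ) - (M * (m + m0) : ℕ) : ℤ)) ^ t *
            ENNReal.ofReal (C * ((2 / ((m + m0 : ℕ) : ℝ)) / d) ^ a)
        ≤ ∑ _i : Fin (2 * M * (m + m0)) × Fin (2 * M * (m + m0)),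
          ENNReal.ofReal ((4 / ((m + m0 : ℕ) : ℝ)) ^ t *
            (C * ((2 / ((m + m0 : ℕ) : ℝ)) / d) ^ a)) := by
          refine Finset.sum_le_sum fun i _ => ?_
          have e5 : ENNReal.ofReal ((4 / ((m + m0 : ℕ) : ℝ)) ^ t *
              (C * ((2 / ((m + m0 : ℕ) : ℝ)) / d) ^ a)) =
              ENNReal.ofReal (4 / ((m + m0 : ℕ) : ℝ)) ^ t *
                ENNReal.ofReal (C * ((2 / ((m + m0 : ℕ) : ℝ)) / d) ^ a) := by
            rw [ENNReal.ofReal_mul (by positivity), ENNReal.ofReal_rpow_of_nonneg h4 ht0.le]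
          rw [e5]
          gcongr
          exact H934F.t10_U_ediam _ _ _ _ _
      _ ≤ ENNReal.ofReal ((2 * M * ((m + m0 : ℕ) : ℝ)) ^ 2 * ((4 / ((m + m0 : ℕ) : ℝ)) ^ t *
            (C * ((2 / ((m + m0 : ℕ) : ℝ)) / d) ^ a))) := by
          have e : (2 * (M : ℝ) * ((m + m0 : ℕ) : ℝ)) ^ 2 =
              ((2 * M * (m + m0) * (2 * M * (m + m0)) : ℕ) : ℝ) := by
            push_cast
            ring
          rw [Finset.sum_const, Finset.card_univ, Fintype.card_prod, Fintype.card_fin,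
            nsmul_eq_mul, e, ENNReal.ofReal_mul (Nat.cast_nonneg _), ENNReal.ofReal_natCast]

/-- the bound for the limit law -/
theorem mu_le {a : ℝ}
    {γ : (n : ℕ) → Finset Plain.Edge → Curve} {C : ℝ}
    (hP : ∀ (z : ℂ) (r d ζ : ℝ) (n : ℕ), 0 < r → r ≤ d →
      Metric.ball z d ⊆ Sq → 0 < n → 1 / (n : ℝ) ≤ r → 2 / (n : ℝ) ≤ ζ →
        (lawOf n (γ n) : Measure Curve) (EvP z r (d / 2) ζ) ≤
          ENNReal.ofReal (C * (r / d) ^ a)) {k : ℕ → ℕ} (hk : Tendsto k atTop atTop)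
    {μ : ProbabilityMeasure Curve} (hμ : Tendsto (fun i => lawOf (k i) (γ (k i))) atTop (𝓝 μ))
    {z : ℂ} {r d : ℝ} (hr : 0 < r) (hrd : r ≤ d) (hb : Metric.ball z d ⊆ Sq) :
    (μ : Measure Curve) (EvQ z r (d / 2)) ≤ ENNReal.ofReal (C * (r / d) ^ a) := by
  have hmono : Monotone (fun j : ℕ => EvP z r (d / 2) (1 / ((j : ℝ) + 1))) := by
    intro i j hij
    apply EvP_mono
    have : (i : ℝ) ≤ j := by exact_mod_cast hij
    exact one_div_le_one_div_of_le (by positivity) (by linarith)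
  unfold EvQ
  rw [hmono.measure_iUnion]
  refine iSup_le fun j => ?_
  refine (ProbabilityMeasure.le_liminf_measure_open_of_tendsto hμ (EvP_open _ _ _ _)).trans ?_
  refine liminf_le_of_frequently_le (Eventually.frequently ?_)
  have hj : (0:ℝ) < 1 / ((j : ℝ) + 1) := by positivity
  obtain ⟨n0, hn0⟩ := exists_nat_gt (1 / r)
  obtain ⟨n1, hn1⟩ := exists_nat_gt (2 / (1 / ((j : ℝ) + 1)))
  have hev : ∀ᶠ i in atTop, max (max n0 n1) 1 ≤ k i := tendsto_atTop.mp hk _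
  filter_upwards [hev] with i hi
  rw [max_le_iff, max_le_iff] at hi
  have hki : 0 < k i := hi.2
  have hki' : (0:ℝ) < k i := by exact_mod_cast hki
  have h6 : (n0 : ℝ) ≤ k i := by exact_mod_cast hi.1.1
  have h7 : (n1 : ℝ) ≤ k i := by exact_mod_cast hi.1.2
  refine hP z r d _ (k i) hr hrd hb hki ?_ ?_
  · rw [div_lt_iff₀ hr] at hn0
    rw [div_le_iff₀ hki']
    nlinarith
  · rw [div_lt_iff₀ hj] at hn1
    rw [div_le_iff₀ hki']
    nlinarith

/-! ### The boundary of the square -/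

theorem dimH_line (f : ℝ → ℂ) (hf : LipschitzWith 1 f) : dimH (Set.range f) ≤ 1 := by
  rw [← Set.image_univ]
  refine (hf.dimH_image_le _).trans ?_
  rw [Real.dimH_univ]

theorem dim_bd : dimH (Sqc \ Sq) ≤ 1 := by
  have l1 : ∀ b : ℝ, LipschitzWith 1 (fun x : ℝ => (⟨x, b⟩ : ℂ)) := by
    intro b
    refine LipschitzWith.of_dist_le_mul fun x y => ?_
    rw [dist_eq_norm]
    refine (Complex.norm_le_abs_re_add_abs_im _).trans ?_
    rw [Complex.sub_re, Complex.sub_im, sub_self, abs_zero, add_zero, NNReal.coe_one, one_mul,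
      Real.dist_eq]
  have l2 : ∀ b : ℝ, LipschitzWith 1 (fun x : ℝ => (⟨b, x⟩ : ℂ)) := by
    intro b
    refine LipschitzWith.of_dist_le_mul fun x y => ?_
    rw [dist_eq_norm]
    refine (Complex.norm_le_abs_re_add_abs_im _).trans ?_
    rw [Complex.sub_re, Complex.sub_im, sub_self, abs_zero, zero_add, NNReal.coe_one, one_mul,
      Real.dist_eq]
  have hsub : Sqc \ Sq ⊆ ((Set.range (fun x : ℝ => (⟨x, 0⟩ : ℂ))) ∪
      (Set.range (fun x : ℝ => (⟨x, 1⟩ : ℂ)))) ∪ ((Set.range (fun x : ℝ => (⟨0, x⟩ : ℂ))) ∪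
      (Set.range (fun x : ℝ => (⟨1, x⟩ : ℂ)))) := by
    rintro z ⟨⟨h1, h2, h3, h4⟩, h5⟩
    have h6 : z.re = 0 ∨ z.re = 1 ∨ z.im = 0 ∨ z.im = 1 := by
      by_contra hcon
      push Not at hcon
      obtain ⟨c1, c2, c3, c4⟩ := hcon
      exact h5 ⟨lt_of_le_of_ne h1 (Ne.symm c1), lt_of_le_of_ne h2 c2,
        lt_of_le_of_ne h3 (Ne.symm c3), lt_of_le_of_ne h4 c4⟩
    rcases h6 with h | h | h | h
    · exact Or.inr (Or.inl ⟨z.im, Complex.ext h.symm rfl⟩)
    · exact Or.inr (Or.inr ⟨z.im, Complex.ext h.symm rfl⟩)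
    · exact Or.inl (Or.inl ⟨z.re, Complex.ext rfl h.symm⟩)
    · exact Or.inl (Or.inr ⟨z.re, Complex.ext rfl h.symm⟩)
  refine (dimH_mono hsub).trans ?_
  rw [dimH_union, dimH_union, dimH_union]
  exact max_le (max_le (dimH_line _ (l1 _)) (dimH_line _ (l1 _)))
    (max_le (dimH_line _ (l2 _)) (dimH_line _ (l2 _)))

/-! ### Main statement -/

/-- Upper bound for the dimension of the outer boundary. -/
theorem upperO {a : ℝ} (ha : 0 < a) (ha1 : a ≤ 1) (hA : UA a)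
    {sel : (n : ℕ) → Finset Plain.Edge → ℤ × ℤ}
    {γ : (n : ℕ) → Finset Plain.Edge → Curve} (hT : Tr sel γ) {k : ℕ → ℕ}
    (hk : Tendsto k atTop atTop) {μ : ProbabilityMeasure Curve}
    (hμ : Tendsto (fun i => lawOf (k i) (γ (k i))) atTop (𝓝 μ)) :
    ∀ᵐ c : Curve ∂(μ : Measure Curve),
      dimH (oB (Set.range c.path)) ≤ ENNReal.ofReal (2 - a) := by
  obtain ⟨C, hC, hP⟩ := prob_leO ha hA hT
  set en : ℕ → ℝ := fun l => 1 / ((l : ℝ) + 1) with hen
  have hen0 : ∀ l, 0 < en l := fun l => by positivity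
  set dn : ℕ → ℕ → ℝ := fun l n => min (en l) (1 / ((n : ℝ) + 1)) with hdn
  have hdn0 : ∀ l n, 0 < dn l n := fun l n => lt_min (hen0 l) (by positivity)
  have h1 : ∀ l n j : ℕ, ∀ᵐ p ∂(μ : Measure Curve),
      dimH (SO (en l) p ∩ H934F.t10_A Sq (dn l n)) ≤
        ENNReal.ofReal (2 - a + 1 / ((j : ℝ) + 1)) := by
    intro l n j
    have hj : 0 < 1 / ((j : ℝ) + 1) := by positivity
    refine one_scaleO (a := a) (C := C) Sq_bdd (hdn0 l n) (min_le_left _ _) ?_ (by linarith) (by linarith)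
    intro z r hr hrd hb
    exact mu_le hP hk hμ hr hrd hb
  have h2 : ∀ᵐ p ∂(μ : Measure Curve), ∀ l n j : ℕ,
      dimH (SO (en l) p ∩ H934F.t10_A Sq (dn l n)) ≤
        ENNReal.ofReal (2 - a + 1 / ((j : ℝ) + 1)) := by
    rw [ae_all_iff]
    intro l
    rw [ae_all_iff]
    intro n
    rw [ae_all_iff]
    intro j
    exact h1 l n j
  filter_upwards [h2, Pool.Agent.W597.PDBL.range_sub hT hk hμ] with p hp hrange
  have hcl := range_closed p
  by_cases hss : (Set.range p.path).Subsingleton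
  · rw [dimH_subsingleton (hss.anti (oB_sub hcl))]
    exact zero_le
  have hsub : oB (Set.range p.path) ⊆
      (Sqc \ Sq) ∪ ⋃ l : ℕ, ⋃ n : ℕ, SO (en l) p ∩ H934F.t10_A Sq (dn l n) := by
    intro z hz
    have hzK := oB_sub hcl hz
    by_cases hzS : z ∈ Sq
    · right
      obtain ⟨ε, hε, hb⟩ := Metric.isOpen_iff.mp Sq_open z hzS
      obtain ⟨n, hn⟩ := exists_nat_one_div_lt hε
      obtain ⟨u, hu⟩ : ∃ u, p.path u ≠ z := by
        by_contra hcon
        push Not at hcon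
        apply hss
        rintro x ⟨s, rfl⟩ y ⟨t, rfl⟩
        rw [hcon s, hcon t]
      obtain ⟨l, hl⟩ := exists_nat_one_div_lt (dist_pos.2 hu)
      refine Set.mem_iUnion.mpr ⟨l, Set.mem_iUnion.mpr ⟨n, ⟨hrange, hz, u, hl.le⟩,
        (Metric.ball_subset_ball ((min_le_right _ _).trans hn.le)).trans hb⟩⟩
    · exact Or.inl ⟨hrange hzK, hzS⟩
  refine (dimH_mono hsub).trans ?_
  rw [dimH_union]
  refine max_le ?_ ?_
  · refine dim_bd.trans ?_
    rw [← ENNReal.ofReal_one]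
    exact ENNReal.ofReal_le_ofReal (by linarith)
  · rw [dimH_iUnion]
    refine iSup_le fun l => ?_
    rw [dimH_iUnion]
    refine iSup_le fun n => ?_
    have hlim : Tendsto (fun j : ℕ => ENNReal.ofReal (2 - a + 1 / ((j : ℝ) + 1))) atTop
        (𝓝 (ENNReal.ofReal (2 - a + 0))) :=
      ENNReal.tendsto_ofReal (tendsto_const_nhds.add tendsto_one_div_add_atTop_nhds_zero_nat)
    rw [add_zero] at hlim
    exact ge_of_tendsto' hlim (fun j => hp l n j)

theorem t_UL3 : S_UL3 := by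
  intro hU sel γ hT k hk μ hμ
  have h := upperO (a := 2/3) (by norm_num) (by norm_num) hU hT hk hμ
  filter_upwards [h] with c hc
  refine hc.trans (le_of_eq ?_)
  rw [show (2 - 2/3 : ℝ) = 4 / 3 by norm_num, ENNReal.ofReal_div_of_pos (by norm_num)]
  norm_num

end Pool.Agent.W424.OD
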